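import Mathlib
import Pool.Agent.N753.DR.Stm6

/-!
# PC/ELIM: elimination (generic polynomials)
-/

set_option autoImplicit false

namespace Pool.Agent.N935.PC

open NumberField MvPolynomial

section

variable {A : Type} [CommRing A] [IsDomain A] {m : ℕ} (r : Fin m → ℕ)

/-- the images of the coefficients -/
noncomputable def im (s : Σ i, Fin (r i + 1)) :
    MvPolynomial (Fin m ⊕ (Σ i, Fin (r i + 1))) A :=
  Fin.cases (motive := fun _ => MvPolynomial (Fin m ⊕ (Σ i, Fin (r i + 1))) A)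
    (-∑ j : Fin (r s.1), X (Sum.inr ⟨s.1, j.succ⟩) * X (Sum.inl s.1) ^ ((j.succ : Fin (r s.1 + 1)) : ℕ))
    (fun j => X (Sum.inr ⟨s.1, j.succ⟩)) s.2

lemma im_zero (i : Fin m) : (im r ⟨i, 0⟩ : MvPolynomial (Fin m ⊕ (Σ i, Fin (r i + 1))) A) =
    -∑ j : Fin (r i), X (Sum.inr ⟨i, j.succ⟩) * X (Sum.inl i) ^ ((j.succ : Fin (r i + 1)) : ℕ) := rfl

lemma im_succ (i : Fin m) (j : Fin (r i)) :
    (im r ⟨i, j.succ⟩ : MvPolynomial (Fin m ⊕ (Σ i, Fin (r i + 1))) A) =
      X (Sum.inr ⟨i, j.succ⟩) := rfl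

lemma elim (G : MvPolynomial (Fin m) A) (hr : ∀ i, 1 ≤ r i) (hG : G ≠ 0) :
    ∃ R : MvPolynomial (Σ i, Fin (r i + 1)) A, R ≠ 0 ∧
      ∃ b : MvPolynomial (Fin m ⊕ (Σ i, Fin (r i + 1))) A,
        aeval (im r) R = b * rename Sum.inl G := by
  letI : Algebra (MvPolynomial (Σ i, Fin (r i + 1)) A)
    (MvPolynomial (Fin m ⊕ (Σ i, Fin (r i + 1))) A) :=
    (aeval (R := A) (im r)).toRingHom.toAlgebra
  have halg : ∀ R : MvPolynomial (Σ i, Fin (r i + 1)) A,
      algebraMap (MvPolynomial (Σ i, Fin (r i + 1)) A)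
        (MvPolynomial (Fin m ⊕ (Σ i, Fin (r i + 1))) A) R = aeval (im r) R := fun R => rfl
  have hX : ∀ i : Fin m, IsAlgebraic (MvPolynomial (Σ i, Fin (r i + 1)) A)
      (X (Sum.inl i) : MvPolynomial (Fin m ⊕ (Σ i, Fin (r i + 1))) A) := by
    intro i
    refine ⟨∑ j : Fin (r i + 1), Polynomial.C (X ⟨i, j⟩) * Polynomial.X ^ (j : ℕ), ?_, ?_⟩
    · intro h0
      have h1 := congrArg (fun p => Polynomial.coeff p 1) h0
      simp only [Polynomial.finset_sum_coeff, Polynomial.coeff_C_mul, Polynomial.coeff_X_pow,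
        Polynomial.coeff_zero] at h1
      have hi := hr i
      rw [Finset.sum_eq_single (⟨1, by omega⟩ : Fin (r i + 1))] at h1
      · simp at h1
      · intro j _ hj
        have : ¬ (1 = (j : ℕ)) := fun h => hj (Fin.ext h.symm)
        simp [this]
      · intro h
        exact absurd (Finset.mem_univ _) h
    · rw [map_sum, Fin.sum_univ_succ]
      simp only [map_mul, map_pow, Polynomial.aeval_C, Polynomial.aeval_X, halg, aeval_X, im_zero,
        im_succ]
      simp
  have hGa : ∀ p : MvPolynomial (Fin m) A, IsAlgebraic (MvPolynomial (Σ i, Fin (r i + 1)) A)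
      (rename Sum.inl p : MvPolynomial (Fin m ⊕ (Σ i, Fin (r i + 1))) A) := by
    intro p
    induction p using MvPolynomial.induction_on with
    | C a =>
      rw [rename_C]
      have : (C a : MvPolynomial (Fin m ⊕ (Σ i, Fin (r i + 1))) A) =
          algebraMap (MvPolynomial (Σ i, Fin (r i + 1)) A) _ (C a) := by
        rw [halg, aeval_C]; rfl
      rw [this]
      exact isAlgebraic_algebraMap _
    | add p q hp hq =>
      rw [map_add]
      exact hp.add hq
    | mul_X p i hp =>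
      rw [map_mul, rename_X]
      exact hp.mul (hX i)
  have hne : (rename Sum.inl G : MvPolynomial (Fin m ⊕ (Σ i, Fin (r i + 1))) A) ≠ 0 := by
    intro h
    exact hG (rename_injective _ Sum.inl_injective (by rw [h, map_zero]))
  obtain ⟨R, hR, b, hb⟩ := (hGa G).exists_nonzero_dvd (mem_nonZeroDivisors_of_ne_zero hne)
  exact ⟨R, hR, b, by rw [← halg, hb, mul_comm]⟩

end

/-- **PC/ELIM** -/
theorem elim_ : Pool.Agent.N753.DR.StmElim := by
  intro K _ _ m r G hr hG
  obtain ⟨R, hR, b, hb⟩ := elim r G hr hG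
  refine ⟨R, hR, ?_⟩
  intro O _ _ z c hz
  set e : MvPolynomial (Fin m ⊕ (Σ i, Fin (r i + 1))) (𝓞 K) →ₐ[𝓞 K] O :=
    aeval (Sum.elim z (fun s => algebraMap (𝓞 K) O (c s.1 s.2))) with he
  have h1 : ∀ s : (Σ i, Fin (r i + 1)), e (im r s) = algebraMap (𝓞 K) O (c s.1 s.2) := by
    rintro ⟨i, j⟩
    refine Fin.cases ?_ (fun j => ?_) j
    · rw [im_zero]
      have h2 := hz i
      rw [Fin.sum_univ_succ] at h2
      simp only [he, map_neg, map_sum, map_mul, map_pow, aeval_X, Sum.elim_inl, Sum.elim_inr]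
      simp only [Fin.val_zero, pow_zero, mul_one] at h2
      exact (eq_neg_of_add_eq_zero_left h2).symm
    · rw [im_succ, he, aeval_X, Sum.elim_inr]
  have h3 : e (aeval (im r) R) = algebraMap (𝓞 K) O (eval (fun s => c s.1 s.2) R) := by
    have h4 : (e.comp (aeval (im r))) = aeval (fun s : (Σ i, Fin (r i + 1)) =>
        algebraMap (𝓞 K) O (c s.1 s.2)) := by
      ext s
      simp [h1]
    have h5 := congrArg (fun f => f R) h4
    simp only [AlgHom.comp_apply] at h5
    rw [h5]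
    have := aeval_algebraMap_apply (A := 𝓞 K) O (fun s : (Σ i, Fin (r i + 1)) => c s.1 s.2) R
    rw [show (fun s : (Σ i, Fin (r i + 1)) => algebraMap (𝓞 K) O (c s.1 s.2)) =
      (algebraMap (𝓞 K) O) ∘ (fun s : (Σ i, Fin (r i + 1)) => c s.1 s.2) from rfl, this]
    rfl
  have h6 : e (rename Sum.inl G) = aeval z G := by
    rw [he, aeval_rename]
    rfl
  refine ⟨e b, ?_⟩
  rw [← h3, hb, map_mul, h6]

end Pool.Agent.N935.PC
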